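import Pool.Agent.H121Z.KotC

namespace Pool.Agent.Results.MP_42ae20_co.Eulerian

/-- For `n ≥ 2`, an Eulerian P-quasigroup of order `n` exists iff `n` is odd and `n ≠ 5`. -/
theorem result (n : ℕ) (hn : 2 ≤ n) :
    (∃ op : Fin n → Fin n → Fin n,
      (∀ a, op a a = a) ∧
      (∀ a b, a ≠ b → op a b ≠ a ∧ op a b ≠ b) ∧
      (∀ a b c, op a b = c ↔ op c b = a) ∧
      (∀ a b, ∃! x, op a x = b) ∧ (∀ a b, ∃! y, op y a = b) ∧
      ∃ v : ZMod (n * (n - 1) / 2) → Fin n,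
        (∀ i, op (v i) (v (i + 1)) = v (i + 2)) ∧
        ∀ a b, a ≠ b → ∃! i, s(v i, v (i + 1)) = s(a, b)) ↔ (Odd n ∧ n ≠ 5) :=
  Pool.Agent.H121Z.Kot.main n hn

end Pool.Agent.Results.MP_42ae20_co.Eulerian
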